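import Pool.Agent.Helper70.EH.Goals4

/-!
# Project EH (MP_20ee5e_ag), packet UT: the upper bound with a parameter
-/

set_option autoImplicit false

open MeasureTheory Set

namespace Pool.Agent.Helper57.EH.UT

open Pool.Agent.Helper70.KN Pool.Agent.Helper70.EQ Pool.Agent.Helper70.EH

theorem X0 {N : ℕ} (V : Finset (Fin N → ℕ)) : X V 0 = W V ∅ := by
  unfold X
  rw [Finset.powersetCard_zero, Finset.sum_singleton]

theorem X1 {N : ℕ} (V : Finset (Fin N → ℕ)) : X V 1 = ∑ i, W V {i} := by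
  unfold X
  rw [Finset.powersetCard_one, Finset.sum_map]
  rfl

/-- the averaged inequality -/
theorem avg (hUS : G_US) (hUA : G_UA) (N t : ℕ) (V : Finset (Fin N → ℕ)) (hN : 3 ≤ N) (ht : t < N)
    (hV : Convenient V) :
    (N : ℝ) * ((N : ℝ) - 1) * (genus V : ℝ) ≤ (N : ℝ) * ((N : ℝ) - 1) * W V ∅ -
      ((N : ℝ) - 1) * t * ∑ i, Y V (1 / 2) {i} +
      t * ((t : ℝ) - 1) * ∑ P ∈ (Finset.univ : Finset (Fin N)).powersetCard 2, Y V (1 / 2) P := by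
  have hNr : (3 : ℝ) ≤ (N : ℝ) := by exact_mod_cast hN
  have hC : (0 : ℝ) < (N.choose t : ℝ) := by exact_mod_cast Nat.choose_pos ht.le
  obtain ⟨u1, u2⟩ := hUA N t (fun i => Y V (1 / 2) {i}) (fun P => Y V (1 / 2) P) ht.le
  have hs : ∑ S ∈ (Finset.univ : Finset (Fin N)).powersetCard t, (genus V : ℝ) ≤
      ∑ S ∈ (Finset.univ : Finset (Fin N)).powersetCard t,
        (W V ∅ - ∑ i ∈ S, Y V (1 / 2) {i} + ∑ P ∈ S.powersetCard 2, Y V (1 / 2) P) := by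
    refine Finset.sum_le_sum fun S hS => hUS N V hV S ?_
    rintro rfl
    have h := (Finset.mem_powersetCard.1 hS).2
    rw [Finset.card_univ, Fintype.card_fin] at h
    omega
  rw [Finset.sum_add_distrib, Finset.sum_sub_distrib, Finset.sum_const, Finset.sum_const,
    Finset.card_powersetCard, Finset.card_univ, Fintype.card_fin, nsmul_eq_mul,
    nsmul_eq_mul] at hs
  set A : ℝ := ∑ S ∈ (Finset.univ : Finset (Fin N)).powersetCard t, ∑ i ∈ S, Y V (1 / 2) {i}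
  set B : ℝ := ∑ S ∈ (Finset.univ : Finset (Fin N)).powersetCard t,
    ∑ P ∈ S.powersetCard 2, Y V (1 / 2) P
  set C : ℝ := (N.choose t : ℝ)
  set a : ℝ := ∑ i, Y V (1 / 2) {i}
  set b : ℝ := ∑ P ∈ (Finset.univ : Finset (Fin N)).powersetCard 2, Y V (1 / 2) P
  have h1 := mul_le_mul_of_nonneg_left hs
    (mul_nonneg (by linarith : (0 : ℝ) ≤ (N : ℝ)) (by linarith : (0 : ℝ) ≤ (N : ℝ) - 1))
  have h2 : (N : ℝ) * ((N : ℝ) - 1) * (C * W V ∅ - A + B) =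
      C * ((N : ℝ) * ((N : ℝ) - 1) * W V ∅ - ((N : ℝ) - 1) * t * a + t * ((t : ℝ) - 1) * b) := by
    linear_combination (-((N : ℝ) - 1)) * u1 + u2
  have h3 : (N : ℝ) * ((N : ℝ) - 1) * (C * (genus V : ℝ)) =
      C * ((N : ℝ) * ((N : ℝ) - 1) * (genus V : ℝ)) := by ring
  rw [h2, h3] at h1
  exact le_of_mul_le_mul_left h1 hC

theorem t (hUS : Pool.Agent.Helper70.EH.G_US) (hUA : Pool.Agent.Helper70.EH.G_UA)
    (hY1 : Pool.Agent.Helper70.KN.S_Y1) (hY2 : Pool.Agent.Helper70.KN.S_Y2)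
    (hXX : Pool.Agent.Helper70.KN.S_XX) : Pool.Agent.Helper70.EH.G_UT := by
  intro N t V c hN ht hT hc
  have hconv := hT.1
  have hc0 : 0 < c := hT.2.1
  have hNr : (3 : ℝ) ≤ (N : ℝ) := by exact_mod_cast hN
  have h1 := avg hUS hUA N t V hN ht hconv
  have h2 : ∀ i : Fin N, (1 / 2 - ((N : ℝ) - 1) * (1 / 2) ^ 2 / (2 * c)) * W V {i} ≤
      Y V (1 / 2) {i} := fun i => hY1 N V c hT i (1 / 2) (by norm_num) (by linarith)
  have h3 : ∀ J ∈ (Finset.univ : Finset (Fin N)).powersetCard 2,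
      Y V (1 / 2) J ≤ 1 / 4 * W V J := by
    intro J hJ
    have h := hY2 N V hconv J (1 / 2) (by norm_num)
    rw [(Finset.mem_powersetCard.1 hJ).2] at h
    have h4 : ((1 : ℝ) / 2) ^ 2 = 1 / 4 := by norm_num
    rwa [h4] at h
  have s2 : (1 / 2 - ((N : ℝ) - 1) * (1 / 2) ^ 2 / (2 * c)) * X V 1 ≤
      ∑ i, Y V (1 / 2) {i} := by
    rw [X1, Finset.mul_sum]
    exact Finset.sum_le_sum fun i _ => h2 i
  have s3 : ∑ J ∈ (Finset.univ : Finset (Fin N)).powersetCard 2, Y V (1 / 2) J ≤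
      1 / 4 * X V 2 := by
    unfold X
    rw [Finset.mul_sum]
    exact Finset.sum_le_sum h3
  have hxx := hXX N V c hT 1 (by omega)
  have htt : (0 : ℝ) ≤ (t : ℝ) * ((t : ℝ) - 1) := by
    rcases Nat.eq_zero_or_pos t with h0 | h0
    · rw [h0]
      simp
    · have : (1 : ℝ) ≤ (t : ℝ) := by exact_mod_cast h0
      exact mul_nonneg (by linarith) (by linarith)
  have ht0 : (0 : ℝ) ≤ (t : ℝ) := Nat.cast_nonneg t
  obtain ⟨m, rfl⟩ : ∃ m, N = m + 2 := ⟨N - 2, by omega⟩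
  have t0 : T V 0 = ((m + 2).factorial : ℝ) * W V ∅ := by
    unfold T
    rw [X0, Nat.sub_zero]
  have t1 : T V 1 = ((m + 1).factorial : ℝ) * X V 1 := rfl
  have t2 : T V 2 = (m.factorial : ℝ) * X V 2 := rfl
  have f2 : ((m + 2).factorial : ℝ) = ((m : ℝ) + 2) * ((m + 1).factorial : ℝ) := by
    rw [Nat.factorial_succ (m + 1)]
    push_cast
    ring
  have f1 : ((m + 1).factorial : ℝ) = ((m : ℝ) + 1) * (m.factorial : ℝ) := by
    rw [Nat.factorial_succ m]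
    push_cast
    ring
  have hF : (0 : ℝ) ≤ (m.factorial : ℝ) := by positivity
  have hm0 : (0 : ℝ) ≤ (m : ℝ) := Nat.cast_nonneg m
  push_cast at h1 s2 hxx hNr ⊢
  set d : ℝ := 1 / (8 * c) with hd
  have hd0 : 0 < d := by positivity
  have hdc : d * (8 * c) = 1 := by
    rw [hd]
    field_simp
  have k1 : ((m : ℝ) + 2 - 1) * (1 / 2) ^ 2 / (2 * c) = ((m : ℝ) + 1) * d := by
    rw [hd]
    field_simp
    ring
  have k2 : (t : ℝ) ^ 2 * ((m : ℝ) + 2 - 1) / (8 * c) = (t : ℝ) ^ 2 * ((m : ℝ) + 1) * d := by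
    rw [hd]
    field_simp
    ring
  rw [k1] at s2
  rw [k2]
  have e2 : T V 2 ≤ 4 * ((m : ℝ) + 1) * d * T V 1 := by
    have h5 : (2 * c) * T V 2 ≤ ((m : ℝ) + 1) * T V 1 := by
      have h6 : T V (1 + 1) = T V 2 := rfl
      rw [h6] at hxx
      nlinarith [hxx]
    have h7 := mul_le_mul_of_nonneg_left h5 (mul_nonneg (by norm_num : (0 : ℝ) ≤ 4) hd0.le)
    have h8 : 4 * d * (2 * c * T V 2) = T V 2 := by
      have : 4 * d * (2 * c * T V 2) = d * (8 * c) * T V 2 := by ring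
      rw [this, hdc, one_mul]
    rw [h8] at h7
    nlinarith [h7]
  have e3 : ((m : ℝ) + 2) * ((m : ℝ) + 1) * (genus V : ℝ) ≤
      ((m : ℝ) + 2) * ((m : ℝ) + 1) * W V ∅ -
      ((m : ℝ) + 1) * t * ((1 / 2 - ((m : ℝ) + 1) * d) * X V 1) +
      t * ((t : ℝ) - 1) * (1 / 4 * X V 2) := by
    have a1 := mul_le_mul_of_nonneg_left s2 (by positivity : (0 : ℝ) ≤ ((m : ℝ) + 1) * t)
    have a2 := mul_le_mul_of_nonneg_left s3 htt
    have a3 : ((m : ℝ) + 2 - 1) = (m : ℝ) + 1 := by ring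
    rw [a3] at h1
    linarith
  have e4 := mul_le_mul_of_nonneg_left e3 hF
  have e5 := mul_le_mul_of_nonneg_left e2
    (mul_nonneg (by norm_num : (0 : ℝ) ≤ 1 / 4) htt)
  have e7 : ((m + 2).factorial : ℝ) * (genus V : ℝ) =
      (m.factorial : ℝ) * (((m : ℝ) + 2) * ((m : ℝ) + 1) * (genus V : ℝ)) := by
    rw [f2, f1]
    ring
  have e8 : (m.factorial : ℝ) * (((m : ℝ) + 2) * ((m : ℝ) + 1) * W V ∅ -
      ((m : ℝ) + 1) * t * ((1 / 2 - ((m : ℝ) + 1) * d) * X V 1) +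
      t * ((t : ℝ) - 1) * (1 / 4 * X V 2)) =
      T V 0 - t * (1 / 2 - ((m : ℝ) + 1) * d) * T V 1 + 1 / 4 * (t * ((t : ℝ) - 1)) * T V 2 := by
    rw [t0, t1, t2, f2, f1]
    ring
  rw [e7]
  refine e4.trans ?_
  rw [e8]
  have e9 : 1 / 4 * ((t : ℝ) * ((t : ℝ) - 1)) * (4 * ((m : ℝ) + 1) * d * T V 1) =
      (t : ℝ) ^ 2 * ((m : ℝ) + 1) * d * T V 1 - t * (((m : ℝ) + 1) * d) * T V 1 := by ring
  rw [e9] at e5
  linarith [e5]

end Pool.Agent.Helper57.EH.UT
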